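import Mathlib
import Pool.Agent.R284.SN4

/-!
# Kolmogorov numbers of `S_p^N → S_q^N`, `0 < q ≤ p ≤ ∞`, including quasi-Banach targets
-/

open Module

namespace Pool.Agent.Results.MP_ddfcce_an.KolmogorovSchatten

variable {𝕜 : Type*} [RCLike 𝕜]

/-- The `j`-th singular value (decreasing order, indexed from `0`) of an `N × N` matrix. -/
noncomputable def sv {N : ℕ} (A : Matrix (Fin N) (Fin N) 𝕜) (j : ℕ) : ℝ :=
  (Matrix.toEuclideanLin A).singularValues j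

/-- The Schatten (quasi-)norm `‖A‖_{S_p}` of an `N × N` matrix, `0 < p ≤ ∞`. -/
noncomputable def S {N : ℕ} (p : ENNReal) (A : Matrix (Fin N) (Fin N) 𝕜) : ℝ :=
  if p = ⊤ then sv A 0 else (∑ j : Fin N, sv A j ^ p.toReal) ^ (1 / p.toReal)

/-- `sup_{‖A‖_{S_p} ≤ 1} inf_{B ∈ L} ‖A - B‖_{S_q}` -/
noncomputable def deviation {N : ℕ} (p q : ENNReal)
    (L : Submodule 𝕜 (Matrix (Fin N) (Fin N) 𝕜)) : ENNReal :=
  ⨆ (A : Matrix (Fin N) (Fin N) 𝕜) (_ : S p A ≤ 1), ⨅ B ∈ L, ENNReal.ofReal (S q (A - B))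

/-- The `n`-th Kolmogorov number of the identity `S_p^N → S_q^N` over the field `𝕜`. -/
noncomputable def kolmogorov (𝕜 : Type*) [RCLike 𝕜] (N : ℕ) (p q : ENNReal) (n : ℕ) : ENNReal :=
  ⨅ (L : Submodule 𝕜 (Matrix (Fin N) (Fin N) 𝕜)) (_ : finrank 𝕜 L < n), deviation p q L

/-- matrices as operators -/
noncomputable def toOp (𝕜 : Type*) [RCLike 𝕜] (N : ℕ) : Matrix (Fin N) (Fin N) 𝕜 ≃ₗ[𝕜]
    (EuclideanSpace 𝕜 (Fin N) →L[𝕜] EuclideanSpace 𝕜 (Fin N)) :=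
  Matrix.toEuclideanLin.trans LinearMap.toContinuousLinearMap

lemma sg_toOp {N : ℕ} (A : Matrix (Fin N) (Fin N) 𝕜) (j : ℕ) :
    R284.SN.sg (toOp 𝕜 N A) j = sv A j := rfl

lemma sn_toOp {N : ℕ} (p : ENNReal) (A : Matrix (Fin N) (Fin N) 𝕜) :
    R284.SN.sn p (toOp 𝕜 N A) = S p A := by
  unfold R284.SN.sn S
  rw [finrank_euclideanSpace_fin]
  split_ifs with h
  · rfl
  · congr 1
    rw [Finset.sum_range]
    rfl

/-- **Main theorem.**  Over `𝕜 = ℝ` or `ℂ`, for all `0 < q < ∞` and `q ≤ p ≤ ∞` there is `c > 0`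
such that for all `N ≥ 1` and `1 ≤ n ≤ N²`
`d_n(S_p^N → S_q^N) ≥ c · max {1, (N² - n + 1)/N}^{1/q - 1/p}`. -/
theorem result (𝕜 : Type*) [RCLike 𝕜] : ∀ p q : ENNReal, 0 < q → q < ⊤ → q ≤ p →
    ∃ c : ℝ, 0 < c ∧ ∀ N n : ℕ, 1 ≤ N → 1 ≤ n → n ≤ N ^ 2 →
      ENNReal.ofReal (c * (max 1 (((N : ℝ) ^ 2 - n + 1) / N)) ^ ((q⁻¹).toReal - (p⁻¹).toReal)) ≤
        kolmogorov 𝕜 N p q n := by
  intro p q hq0 hqtop hqp
  set r := q.toReal with hr
  have hr0 : 0 < r := ENNReal.toReal_pos hq0.ne' hqtop.ne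
  have hqr : ENNReal.ofReal r = q := ENNReal.ofReal_toReal hqtop.ne
  have hqinv : (q⁻¹).toReal = 1 / r := by rw [ENNReal.toReal_inv, one_div]
  have hp0 : 0 < p := hq0.trans_le hqp
  set γ := (q⁻¹).toReal - (p⁻¹).toReal with hγ
  have hγ0 : 0 ≤ γ := by
    have h1 : p⁻¹ ≤ q⁻¹ := ENNReal.inv_le_inv.2 hqp
    have h2 : q⁻¹ ≠ ⊤ := by rw [Ne, ENNReal.inv_eq_top]; exact hq0.ne'
    have := ENNReal.toReal_mono h2 h1
    rw [hγ]; linarith
  set K : ℝ := (5 : ℝ) ^ (16 * (⌈1 / r⌉₊ + 1)) * R284.SN.Cp p with hK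
  have hK0 : 0 < K := mul_pos (by positivity) (R284.SN.Cp_pos p)
  refine ⟨min 1 (K⁻¹ * (2 : ℝ) ^ (-γ)), by positivity, ?_⟩
  intro N n hN hn hnN
  have hN0 : (0 : ℝ) < N := by exact_mod_cast hN
  unfold kolmogorov
  refine le_iInf₂ fun L hL => ?_
  set M := max 1 (((N : ℝ) ^ 2 - n + 1) / N) with hM
  have hM1 : 1 ≤ M := le_max_left _ _
  have hM0 : 0 < M := by linarith
  by_contra hcon
  push Not at hcon
  obtain ⟨δ, hδ1, hδ2⟩ := ENNReal.lt_iff_exists_nnreal_btwn.1 hcon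
  have hδ0 : (0 : ℝ) < δ := by
    have : (0 : ENNReal) < δ := lt_of_le_of_lt zero_le hδ1
    exact_mod_cast this
  -- translate to operators
  set L' := L.map (toOp 𝕜 N).toLinearMap with hL'
  have hdist : ∀ f : EuclideanSpace 𝕜 (Fin N) →L[𝕜] EuclideanSpace 𝕜 (Fin N),
      R284.SN.sn p f ≤ 1 → ∃ y ∈ L', R284.SN.sn (ENNReal.ofReal r) (f - y) ≤ δ := by
    intro f hf
    obtain ⟨A, rfl⟩ := (toOp 𝕜 N).surjective f
    rw [sn_toOp] at hf
    have h1 : (⨅ B ∈ L, ENNReal.ofReal (S q (A - B))) < δ := by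
      refine lt_of_le_of_lt ?_ hδ1
      unfold deviation
      exact le_iSup₂ (f := fun (A : Matrix (Fin N) (Fin N) 𝕜) (_ : S p A ≤ 1) =>
        ⨅ B ∈ L, ENNReal.ofReal (S q (A - B))) A hf
    obtain ⟨B, h2⟩ := iInf_lt_iff.1 h1
    obtain ⟨hB, h3⟩ := iInf_lt_iff.1 h2
    refine ⟨toOp 𝕜 N B, ⟨B, hB, rfl⟩, ?_⟩
    rw [← map_sub, sn_toOp, hqr]
    have h4 : ENNReal.ofReal (S q (A - B)) < ENNReal.ofReal (δ : ℝ) := by
      rw [ENNReal.ofReal_coe_nnreal]; exact h3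
    exact ((ENNReal.ofReal_lt_ofReal_iff hδ0).1 h4).le
  -- dimensions
  have hdim : finrank 𝕜 ((EuclideanSpace 𝕜 (Fin N) →L[𝕜] EuclideanSpace 𝕜 (Fin N)) ⧸ L') +
      finrank 𝕜 L = N ^ 2 := by
    have h1 := Submodule.finrank_quotient_add_finrank L'
    have h2 : finrank 𝕜 L' = finrank 𝕜 L := LinearEquiv.finrank_map_eq (toOp 𝕜 N) L
    have h3 : finrank 𝕜 (EuclideanSpace 𝕜 (Fin N) →L[𝕜] EuclideanSpace 𝕜 (Fin N)) = N ^ 2 := by
      rw [← LinearEquiv.finrank_eq (toOp 𝕜 N), Module.finrank_matrix]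
      simp [pow_two]
    rw [h2, h3] at h1
    exact h1
  set k := finrank 𝕜 ((EuclideanSpace 𝕜 (Fin N) →L[𝕜] EuclideanSpace 𝕜 (Fin N)) ⧸ L') with hk
  have hk1 : N ^ 2 + 1 ≤ k + n := by omega
  have hk0 : 1 ≤ k := by omega
  obtain ⟨hb1, hb2⟩ := R284.SN.lower_bounds hr0 p (by rw [hqr]; exact hqp) L' hδ0 hdist hk0
  have hkM : ((N : ℝ) ^ 2 - n + 1) ≤ k := by
    have : ((N ^ 2 + 1 : ℕ) : ℝ) ≤ ((k + n : ℕ) : ℝ) := by exact_mod_cast hk1
    push_cast at this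
    linarith
  -- the contradiction
  have hx : min 1 (K⁻¹ * (2 : ℝ) ^ (-γ)) * M ^ γ ≤ δ := by
    by_cases hkN : k < N
    · have h1 : M = 1 := by
        rw [hM]
        apply max_eq_left
        rw [div_le_one hN0]
        have : (k : ℝ) < N := by exact_mod_cast hkN
        linarith
      rw [h1, Real.one_rpow, mul_one]
      exact (min_le_left _ _).trans hb1
    · push Not at hkN
      set l := Nat.log 2 (k / N) with hl
      have hkN1 : 1 ≤ k / N := (Nat.one_le_div_iff (by omega)).2 hkN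
      have h1 : 2 ^ l ≤ k / N := Nat.pow_log_le_self 2 (by omega)
      have h2 : k / N < 2 ^ (l + 1) := Nat.lt_pow_succ_log_self (by norm_num) _
      have h3 : N * 2 ^ l ≤ k := by
        calc N * 2 ^ l ≤ N * (k / N) := Nat.mul_le_mul_left _ h1
          _ ≤ k := Nat.mul_div_le k N
      have h4 : k < 2 ^ (l + 1) * N := (Nat.div_lt_iff_lt_mul (by omega)).1 h2
      have h5 : (k : ℝ) ≤ 2 * 2 ^ l * N := by
        have : (k : ℝ) < ((2 ^ (l + 1) * N : ℕ) : ℝ) := by exact_mod_cast h4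
        push_cast at this
        rw [pow_succ] at this
        linarith
      have h6 : M ≤ 2 * 2 ^ l := by
        rw [hM]
        apply max_le
        · have : (1 : ℝ) ≤ 2 ^ l := one_le_pow₀ (by norm_num)
          linarith
        · rw [div_le_iff₀ hN0]
          linarith
      have h7 := hb2 l (by rw [finrank_euclideanSpace_fin]; exact h3)
      have h8 : (p⁻¹).toReal - 1 / r = -γ := by rw [hγ, hqinv]; ring
      rw [h8] at h7
      have h9 : 1 ≤ K * (δ * ((2 : ℝ) ^ l) ^ (-γ)) := by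
        rw [hK]
        calc (1 : ℝ) ≤ _ := h7
          _ = _ := by ring
      have h10 : (0 : ℝ) < ((2 : ℝ) ^ l) ^ γ := by positivity
      have h11 : K⁻¹ * ((2 : ℝ) ^ l) ^ γ ≤ δ := by
        rw [Real.rpow_neg (by positivity)] at h9
        rw [inv_mul_le_iff₀ hK0]
        calc ((2 : ℝ) ^ l) ^ γ = 1 * ((2 : ℝ) ^ l) ^ γ := (one_mul _).symm
          _ ≤ K * (δ * (((2 : ℝ) ^ l) ^ γ)⁻¹) * ((2 : ℝ) ^ l) ^ γ :=
            mul_le_mul_of_nonneg_right h9 h10.le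
          _ = K * δ := by field_simp
      calc min 1 (K⁻¹ * (2 : ℝ) ^ (-γ)) * M ^ γ ≤ (K⁻¹ * (2 : ℝ) ^ (-γ)) * (2 * 2 ^ l) ^ γ := by
            apply mul_le_mul (min_le_right _ _) (Real.rpow_le_rpow hM0.le h6 hγ0)
              (by positivity) (by positivity)
        _ = K⁻¹ * ((2 : ℝ) ^ l) ^ γ := by
            rw [Real.mul_rpow (by norm_num) (by positivity), Real.rpow_neg (by norm_num)]
            have : (0 : ℝ) < (2 : ℝ) ^ γ := by positivity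
            field_simp
        _ ≤ δ := h11
  have h12 : ENNReal.ofReal (min 1 (K⁻¹ * (2 : ℝ) ^ (-γ)) * M ^ γ) ≤ δ := by
    rw [← ENNReal.ofReal_coe_nnreal]
    exact ENNReal.ofReal_le_ofReal hx
  exact absurd hδ2 (not_lt.2 h12)

end Pool.Agent.Results.MP_ddfcce_an.KolmogorovSchatten
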